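import Mathlib

/-!
Linear algebra behind the presentation of `λ⁻¹ so_3[λ⁻¹]` by cubic relations, and the filtered
version of it in an arbitrary Lie algebra over a field of characteristic zero.
-/

namespace Pool.Agent.H35.LoopSO3

section Cross

variable {Q : Type*} [AddCommGroup Q]

/-- the element `e_i × e_j` of the cross product, with `e_t` replaced by `y t` -/
def cr (y : Fin 3 → Q) (i j : Fin 3) : Q :=
  (!![0, y 2, -y 1; -y 2, 0, y 0; y 1, -y 0, 0] : Matrix (Fin 3) (Fin 3) Q) i j

@[simp] theorem cr00 (y : Fin 3 → Q) : cr y 0 0 = 0 := rfl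
@[simp] theorem cr01 (y : Fin 3 → Q) : cr y 0 1 = y 2 := rfl
@[simp] theorem cr02 (y : Fin 3 → Q) : cr y 0 2 = -y 1 := rfl
@[simp] theorem cr10 (y : Fin 3 → Q) : cr y 1 0 = -y 2 := rfl
@[simp] theorem cr11 (y : Fin 3 → Q) : cr y 1 1 = 0 := rfl
@[simp] theorem cr12 (y : Fin 3 → Q) : cr y 1 2 = y 0 := rfl
@[simp] theorem cr20 (y : Fin 3 → Q) : cr y 2 0 = y 1 := rfl
@[simp] theorem cr21 (y : Fin 3 → Q) : cr y 2 1 = -y 0 := rfl
@[simp] theorem cr22 (y : Fin 3 → Q) : cr y 2 2 = 0 := rfl

variable {k : Type*} [Field k] [CharZero k] [Module k Q]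

include k in
theorem cross_solve {n : ℕ} (hn : 3 ≤ n) (A : ℕ → Fin 3 → Fin 3 → Q)
    (hanti : ∀ a b, 1 ≤ a → 1 ≤ b → a + b = n + 1 → ∀ i j, A a i j = - A b j i)
    (hjac : ∀ a b c, 1 ≤ a → 1 ≤ b → 1 ≤ c → a + b + c = n + 1 → ∀ i j s,
      cr (A a i) j s + cr (A b j) s i + cr (A c s) i j = 0) :
    ∀ a, 1 ≤ a → a ≤ n → ∀ i j, A a i j = cr ![A 1 1 2, A 1 2 0, A 1 0 1] i j := by
  -- off-diagonal entries
  have hoff : ∀ a b, 1 ≤ a → 1 ≤ b → a + b ≤ n → ∀ i j, i ≠ j → A a i j = A b i j := by
    intro a b ha hb hab i j hij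
    have h0 := fun i j s => hjac a b (n + 1 - a - b) ha hb (by omega) (by omega) i j s
    fin_cases i <;> fin_cases j <;> first | exact absurd rfl hij | skip
    · have := h0 0 0 2
      simp only [cr00, cr02, cr20] at this
      simp only [Fin.zero_eta, Fin.mk_one]
      rw [add_zero, neg_add_eq_zero] at this
      exact this
    · have := h0 0 0 1
      simp only [cr00, cr01, cr10] at this
      simp only [Fin.zero_eta, Fin.reduceFinMk]
      rw [add_zero, ← sub_eq_add_neg, sub_eq_zero] at this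
      exact this
    · have := h0 1 1 2
      simp only [cr11, cr12, cr21] at this
      simp only [Fin.zero_eta, Fin.mk_one]
      rw [add_zero, ← sub_eq_add_neg, sub_eq_zero] at this
      exact this
    · have := h0 1 1 0
      simp only [cr11, cr10, cr01] at this
      simp only [Fin.mk_one, Fin.reduceFinMk]
      rw [add_zero, neg_add_eq_zero] at this
      exact this
    · have := h0 2 2 1
      simp only [cr22, cr21, cr12] at this
      simp only [Fin.zero_eta, Fin.reduceFinMk]
      rw [add_zero, neg_add_eq_zero] at this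
      exact this
    · have := h0 2 2 0
      simp only [cr22, cr20, cr02] at this
      simp only [Fin.mk_one, Fin.reduceFinMk]
      rw [add_zero, ← sub_eq_add_neg, sub_eq_zero] at this
      exact this
  have hanti1 : ∀ i j, i ≠ j → A 1 i j = - A 1 j i := by
    intro i j hij
    have h1 := hanti (n - 1) 2 (by omega) (by omega) (by omega) i j
    have h2 := hoff (n - 1) 1 (by omega) (by omega) (by omega) i j hij
    have h3 := hoff 2 1 (by omega) (by omega) (by omega) j i (Ne.symm hij)
    rw [← h2, h1, h3]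
  have hoff' : ∀ a, 1 ≤ a → a ≤ n → ∀ i j, i ≠ j → A a i j = A 1 i j := by
    intro a ha han i j hij
    rcases Nat.lt_or_ge a n with h | h
    · exact hoff a 1 ha le_rfl (by omega) i j hij
    · have : a = n := by omega
      subst this
      rw [hanti a 1 (by omega) le_rfl rfl i j, hanti1 i j hij]
  -- diagonal entries
  have hd : ∀ a b, 1 ≤ a → 1 ≤ b → a + b ≤ n →
      A (a + b) 2 2 = A a 0 0 + A b 1 1 ∧ A (a + b) 0 0 = A a 1 1 + A b 2 2 ∧
        A (a + b) 1 1 = A a 2 2 + A b 0 0 := by
    intro a b ha hb hab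
    have h0 := fun i j s => hjac a b (n + 1 - a - b) ha hb (by omega) (by omega) i j s
    have h1 := fun i => hanti (a + b) (n + 1 - a - b) (by omega) (by omega) (by omega) i i
    refine ⟨?_, ?_, ?_⟩
    · have := h0 0 1 2
      simp only [cr12, cr20, cr01] at this
      rw [h1 2]
      exact (eq_neg_of_add_eq_zero_left this).symm
    · have := h0 1 2 0
      simp only [cr20, cr01, cr12] at this
      rw [h1 0]
      exact (eq_neg_of_add_eq_zero_left this).symm
    · have := h0 2 0 1
      simp only [cr01, cr12, cr20] at this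
      rw [h1 1]
      exact (eq_neg_of_add_eq_zero_left this).symm
  have two_ne : (2 : k) ≠ 0 := two_ne_zero
  have hcancel : ∀ x y : Q, x + x = y + y → x = y := by
    intro x y h
    have h2 : (2 : k) • x = (2 : k) • y := by
      rw [two_smul, two_smul, h]
    exact smul_right_injective Q two_ne h2
  obtain ⟨p22, p20, p21⟩ := hd 1 1 le_rfl le_rfl (by omega)
  obtain ⟨q2, q0, q1⟩ := hd 1 2 le_rfl (by omega) (by omega)
  obtain ⟨r2, r0, r1⟩ := hd 2 1 (by omega) le_rfl (by omega)
  norm_num at p22 p20 p21 q2 q0 q1 r2 r0 r1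
  have e01 : A 1 0 0 = A 1 1 1 := by
    apply hcancel
    have h : A 1 0 0 + A 2 1 1 = A 2 0 0 + A 1 1 1 := by rw [← q2, ← r2]
    rw [p21, p20] at h
    have h' : (A 1 0 0 + A 1 0 0) + A 1 2 2 = (A 1 1 1 + A 1 1 1) + A 1 2 2 := by
      calc _ = A 1 0 0 + (A 1 2 2 + A 1 0 0) := by abel
        _ = _ := h
        _ = _ := by abel
    exact add_right_cancel h'
  have e12 : A 1 1 1 = A 1 2 2 := by
    apply hcancel
    have h : A 1 1 1 + A 2 2 2 = A 2 1 1 + A 1 2 2 := by rw [← q0, ← r0]
    rw [p22, p21] at h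
    have h' : (A 1 1 1 + A 1 1 1) + A 1 0 0 = (A 1 2 2 + A 1 2 2) + A 1 0 0 := by
      calc _ = A 1 1 1 + (A 1 0 0 + A 1 1 1) := by abel
        _ = _ := h
        _ = _ := by abel
    exact add_right_cancel h'
  have hmul : ∀ a, 1 ≤ a → a ≤ n → A a 0 0 = (a : k) • A 1 0 0 ∧ A a 1 1 = (a : k) • A 1 0 0 ∧
      A a 2 2 = (a : k) • A 1 0 0 := by
    intro a ha
    induction a, ha using Nat.le_induction with
    | base =>
      intro _
      simp [← e01, ← e12]
    | succ a ha ih =>
      intro han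
      obtain ⟨i0, i1, i2⟩ := ih (by omega)
      obtain ⟨d2, d0, d1⟩ := hd a 1 ha le_rfl han
      refine ⟨?_, ?_, ?_⟩
      · rw [d0, i1, ← e12, ← e01]; push_cast; rw [add_smul, one_smul]
      · rw [d1, i2]; push_cast; rw [add_smul, one_smul]
      · rw [d2, i0, ← e01]; push_cast; rw [add_smul, one_smul]
  have hzero : A 1 0 0 = 0 := by
    have h1 := (hmul n (by omega) le_rfl).1
    have h2 := hanti n 1 (by omega) le_rfl rfl 0 0
    rw [h1] at h2
    have h3 : ((n : k) + 1) • A 1 0 0 = 0 := by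
      rw [add_smul, one_smul, h2, neg_add_cancel]
    rcases smul_eq_zero.mp h3 with h | h
    · exact absurd h (by exact_mod_cast Nat.succ_ne_zero n)
    · exact h
  have hdiag : ∀ a, 1 ≤ a → a ≤ n → ∀ i, A a i i = 0 := by
    intro a ha han i
    obtain ⟨i0, i1, i2⟩ := hmul a ha han
    rw [hzero, smul_zero] at i0 i1 i2
    fin_cases i
    · exact i0
    · exact i1
    · exact i2
  intro a ha han i j
  fin_cases i <;> fin_cases j
  · exact hdiag a ha han 0
  · exact hoff' a ha han 0 1 (by decide)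
  · exact (hoff' a ha han 0 2 (by decide)).trans (hanti1 0 2 (by decide))
  · exact (hoff' a ha han 1 0 (by decide)).trans (hanti1 1 0 (by decide))
  · exact hdiag a ha han 1
  · exact hoff' a ha han 1 2 (by decide)
  · exact hoff' a ha han 2 0 (by decide)
  · exact (hoff' a ha han 2 1 (by decide)).trans (hanti1 2 1 (by decide))
  · exact hdiag a ha han 2

end Cross

end Pool.Agent.H35.LoopSO3
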