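import Mathlib

/-!
# The loop algebra `so_3((λ))`, factoring subalgebras and the cubic relations (R)
-/

namespace Pool.Agent.H35.LoopSO3

/- commutator bracket on an associative ring, and coefficientwise action of `ℂ` on `ℂ((λ))` -/
attribute [local instance 100] LieRing.ofAssociativeRing
attribute [local instance 2000] HahnSeries.instAlgebra

/-- `3 × 3` matrices over the field `ℂ((λ))` of formal Laurent series. -/
def MatL : Type := Matrix (Fin 3) (Fin 3) (LaurentSeries ℂ)

/-- `MatL` is a Lie ring for the commutator bracket `[A, B] = A B - B A`. -/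
noncomputable instance instLieRingMatL : LieRing MatL :=
  inferInstanceAs (LieRing (Matrix (Fin 3) (Fin 3) (LaurentSeries ℂ)))

/-- `MatL` is a Lie algebra over `ℂ`. -/
noncomputable instance instLieAlgebraMatL : LieAlgebra ℂ MatL :=
  inferInstanceAs (LieAlgebra ℂ (Matrix (Fin 3) (Fin 3) (LaurentSeries ℂ)))

/-- The `(i, j)` entry of a matrix. -/
def MatL.entry (A : MatL) (i j : Fin 3) : LaurentSeries ℂ := A i j

theorem matL_lie_entry (A B : MatL) (i j : Fin 3) :
    (⁅A, B⁆ : MatL).entry i j =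
      ∑ s, A.entry i s * B.entry s j - ∑ s, B.entry i s * A.entry s j := rfl

theorem neg_mul_neg_comm' {R : Type*} [CommRing R] (a b : R) : -a * -b = b * a := by ring

/-- The skew-symmetric matrices form a Lie subalgebra. -/
noncomputable def skew : LieSubalgebra ℂ MatL where
  carrier := {A | ∀ i j, A.entry j i = - A.entry i j}
  add_mem' {A B} hA hB i j := by
    change A.entry j i + B.entry j i = -(A.entry i j + B.entry i j)
    rw [hA, hB, neg_add]
  zero_mem' i j := by
    change (0 : LaurentSeries ℂ) = -0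
    simp
  smul_mem' c A hA i j := by
    change c • A.entry j i = -(c • A.entry i j)
    rw [hA, smul_neg]
  lie_mem' {A B} hA hB i j := by
    change (⁅A, B⁆ : MatL).entry j i = - (⁅A, B⁆ : MatL).entry i j
    rw [matL_lie_entry, matL_lie_entry, neg_sub]
    have hA : ∀ i j, A.entry j i = - A.entry i j := hA
    have hB : ∀ i j, B.entry j i = - B.entry i j := hB
    congr 1
    · apply Finset.sum_congr rfl
      intro s _
      rw [hA s j, hB i s]
      exact neg_mul_neg_comm' _ _
    · apply Finset.sum_congr rfl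
      intro s _
      rw [hB s j, hA i s]
      exact neg_mul_neg_comm' _ _

/-- The loop algebra `so_3((λ))`: skew-symmetric `3 × 3` matrices over `ℂ((λ))`, that is, formal
Laurent series with coefficients in `so_3`. -/
def Loop : Type := skew

/-- The bracket of `so_3((λ))` is the commutator of matrices. -/
noncomputable instance instLieRingLoop : LieRing Loop := inferInstanceAs (LieRing skew)

/-- `so_3((λ))` is a Lie algebra over `ℂ`. -/
noncomputable instance instLieAlgebraLoop : LieAlgebra ℂ Loop :=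
  inferInstanceAs (LieAlgebra ℂ skew)

/-- The `(i, j)` entry of an element of `so_3((λ))`. -/
def entry (A : Loop) (i j : Fin 3) : LaurentSeries ℂ := A.1.entry i j

/-- The Taylor series `so_3[[λ]]` inside `so_3((λ))`: no negative powers of `λ`. -/
noncomputable def taylor : Submodule ℂ Loop where
  carrier := {A | ∀ i j, ∀ n : ℤ, n < 0 → (entry A i j).coeff n = 0}
  add_mem' {A B} hA hB i j n hn := by
    change (entry A i j + entry B i j).coeff n = 0
    rw [HahnSeries.coeff_add, hA i j n hn, hB i j n hn, add_zero]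
  zero_mem' i j n _ := by
    change ((0 : LaurentSeries ℂ)).coeff n = 0
    simp
  smul_mem' c A hA i j n hn := by
    change (c • (entry A i j)).coeff n = 0
    rw [HahnSeries.coeff_smul, hA i j n hn, smul_zero]

/-- A Lie subalgebra `U` of `so_3((λ))` is factoring if `so_3((λ)) = so_3[[λ]] ⊕ U` as vector
spaces. -/
def IsFactoring (U : LieSubalgebra ℂ Loop) : Prop := IsCompl taylor U.toSubmodule

/-- The basis `e_1 = E_12 - E_21`, `e_2 = E_13 - E_31`, `e_3 = E_23 - E_32` of `so_3`
(indexed here by `0, 1, 2`). -/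
def e : Fin 3 → Matrix (Fin 3) (Fin 3) ℂ :=
  ![!![0, 1, 0; -1, 0, 0; 0, 0, 0], !![0, 0, 1; 0, 0, 0; -1, 0, 0], !![0, 0, 0; 0, 0, 1; 0, -1, 0]]

theorem e_skew (t i j : Fin 3) : e t j i = - e t i j := by
  fin_cases t <;> fin_cases i <;> fin_cases j <;> simp [e]

/-- The element `e_t / λ` of `so_3((λ))`, with entries `c λ⁻¹` for `c` the entries of `e_t`. -/
noncomputable def eOver (t : Fin 3) : Loop :=
  ⟨fun i j => HahnSeries.single (-1) (e t i j), fun i j => by
    change HahnSeries.single (-1) (e t j i) = - HahnSeries.single (-1) (e t i j)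
    rw [e_skew]
    simp⟩

/-- The vector `K = ([E_3,E_1], [E_1,E_2], [E_2,E_3])` (indices `0, 1, 2` here). -/
noncomputable def vecK (E : Fin 3 → Loop) : Fin 3 → Loop := ![⁅E 2, E 0⁆, ⁅E 0, E 1⁆, ⁅E 1, E 2⁆]

/-- The vector `F = (E_2, E_3, E_1)` (indices `0, 1, 2` here). -/
def vecF (E : Fin 3 → Loop) : Fin 3 → Loop := ![E 1, E 2, E 0]

/-- The vector `([E_1,[E_2,E_3]], [E_3,[E_1,E_2]], [E_2,[E_3,E_1]])`. -/
noncomputable def cubic1 (E : Fin 3 → Loop) : Fin 3 → Loop :=
  ![⁅E 0, ⁅E 1, E 2⁆⁆, ⁅E 2, ⁅E 0, E 1⁆⁆, ⁅E 1, ⁅E 2, E 0⁆⁆]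

/-- The vector `([E_3,[E_2,E_3]] + [E_1,[E_1,E_2]], [E_1,[E_3,E_1]] + [E_2,[E_2,E_3]],
[E_2,[E_1,E_2]] + [E_3,[E_3,E_1]])`. -/
noncomputable def cubic2 (E : Fin 3 → Loop) : Fin 3 → Loop :=
  ![⁅E 2, ⁅E 1, E 2⁆⁆ + ⁅E 0, ⁅E 0, E 1⁆⁆, ⁅E 0, ⁅E 2, E 0⁆⁆ + ⁅E 1, ⁅E 1, E 2⁆⁆,
    ⁅E 1, ⁅E 0, E 1⁆⁆ + ⁅E 2, ⁅E 2, E 0⁆⁆]

/-- The product of a constant matrix and a vector of elements of `so_3((λ))`. -/
noncomputable def mulVecL (P : Matrix (Fin 3) (Fin 3) ℂ) (v : Fin 3 → Loop) : Fin 3 → Loop :=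
  fun r => ∑ s, P r s • v s

/-- The cubic relations (R): `cubic1 = A K + B F` and `cubic2 = C K + D F` for some constant
matrices `A, B, C, D`, not restricted further. -/
def RelR (E : Fin 3 → Loop) : Prop :=
  ∃ A B C D : Matrix (Fin 3) (Fin 3) ℂ,
    cubic1 E = mulVecL A (vecK E) + mulVecL B (vecF E) ∧
    cubic2 E = mulVecL C (vecK E) + mulVecL D (vecF E)

end Pool.Agent.H35.LoopSO3
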