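import Pool.Agent.H35.LoopSO3.Cross

/-!
A Lie algebra generated by three elements satisfying the cubic relations modulo shorter commutators
has, in each length, at most three new commutators.
-/

namespace Pool.Agent.H35.LoopSO3

theorem cr_map {Q Q' G : Type*} [AddCommGroup Q] [AddCommGroup Q'] [FunLike G Q Q']
    [AddMonoidHomClass G Q Q'] (f : G) (y : Fin 3 → Q) (i j : Fin 3) :
    f (cr y i j) = cr (fun t => f (y t)) i j := by
  fin_cases i <;> fin_cases j <;> simp [cr]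

section Lie

variable {L : Type*} [LieRing L] (X : Fin 3 → L)

/-- the iterated commutators `Y m i`, with `Y 1 = X`, `Y (m+1) 0 = [X 1, Y m 2]`, etc. -/
def Y : ℕ → Fin 3 → L
  | 0 => 0
  | 1 => X
  | m + 2 => ![⁅X 1, Y (m + 1) 2⁆, ⁅X 2, Y (m + 1) 0⁆, ⁅X 0, Y (m + 1) 1⁆]

@[simp] theorem Y_zero (i : Fin 3) : Y X 0 i = 0 := rfl
@[simp] theorem Y_one : Y X 1 = X := rfl
theorem Y_add_two (m : ℕ) : Y X (m + 2) =
    ![⁅X 1, Y X (m + 1) 2⁆, ⁅X 2, Y X (m + 1) 0⁆, ⁅X 0, Y X (m + 1) 1⁆] := rfl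

theorem Y_succ {m : ℕ} (hm : 1 ≤ m) : Y X (m + 1) =
    ![⁅X 1, Y X m 2⁆, ⁅X 2, Y X m 0⁆, ⁅X 0, Y X m 1⁆] := by
  obtain ⟨m, rfl⟩ := Nat.exists_eq_add_of_le' hm
  exact Y_add_two X m

variable (k : Type*) [Field k] [LieAlgebra k L]

theorem lie_cr (x : L) (y : Fin 3 → L) (i j : Fin 3) :
    ⁅x, cr y i j⁆ = cr (fun t => ⁅x, y t⁆) i j := by
  fin_cases i <;> fin_cases j <;> simp [cr]

/-- the span of the `Y j i`, `j ≤ m` -/
def V (m : ℕ) : Submodule k L := Submodule.span k {x | ∃ j, j ≤ m ∧ ∃ i, x = Y X j i}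

theorem Y_mem_V {j m : ℕ} (h : j ≤ m) (i : Fin 3) : Y X j i ∈ V X k m :=
  Submodule.subset_span ⟨j, h, i, rfl⟩

theorem V_mono {m n : ℕ} (h : m ≤ n) : V X k m ≤ V X k n :=
  Submodule.span_mono fun _ ⟨j, hj, i, hi⟩ => ⟨j, hj.trans h, i, hi⟩

theorem cr_mem_V {j m : ℕ} (h : j ≤ m) (i i' : Fin 3) : cr (Y X j) i i' ∈ V X k m := by
  have h0 := Y_mem_V X k h 0
  have h1 := Y_mem_V X k h 1
  have h2 := Y_mem_V X k h 2
  fin_cases i <;> fin_cases i' <;>
    simp only [Fin.zero_eta, Fin.mk_one, Fin.reduceFinMk, cr00, cr01, cr02, cr10, cr11, cr12, cr20,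
      cr21, cr22, neg_mem_iff, zero_mem, h0, h1, h2]

/-- the commutation relations in total length `n`, modulo shorter ones -/
def P (n : ℕ) : Prop := ∀ a b, 1 ≤ a → 1 ≤ b → a + b = n → ∀ i j,
  ⁅Y X a i, Y X b j⁆ - cr (Y X n) i j ∈ V X k (n - 1)

variable {X k}

theorem P.lie_mem {n : ℕ} (h : P X k n) {a b : ℕ} (ha : 1 ≤ a) (hb : 1 ≤ b) (hab : a + b = n)
    (i j : Fin 3) : ⁅Y X a i, Y X b j⁆ ∈ V X k n := by
  have h1 := V_mono X k (Nat.sub_le n 1) (h a b ha hb hab i j)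
  have h2 := cr_mem_V X k (le_refl n) i j
  have := add_mem h1 h2
  rwa [sub_add_cancel] at this

theorem lie_V_mem {n : ℕ} (hP : ∀ m, 2 ≤ m → m ≤ n → P X k m) {a q : ℕ} (ha : 1 ≤ a)
    (haq : a + q ≤ n) (i : Fin 3) {v : L} (hv : v ∈ V X k q) : ⁅Y X a i, v⁆ ∈ V X k (a + q) := by
  induction hv using Submodule.span_induction with
  | mem x hx =>
    obtain ⟨j, hj, i', rfl⟩ := hx
    rcases Nat.eq_zero_or_pos j with rfl | hj0
    · simp
    · exact V_mono X k (by omega) ((hP (a + j) (by omega) (by omega)).lie_mem ha hj0 rfl i i')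
  | zero => simp
  | add x y _ _ hx hy => rw [lie_add]; exact add_mem hx hy
  | smul c x _ hx => rw [lie_smul]; exact Submodule.smul_mem _ _ hx

theorem P_succ [CharZero k] {n : ℕ} (hn : 3 ≤ n) (hP : ∀ m, 2 ≤ m → m ≤ n → P X k m) : P X k (n + 1) := by
  set π := (V X k n).mkQ with hπ
  have hπ0 : ∀ v ∈ V X k n, π v = 0 := fun v hv => by
    rw [hπ, Submodule.mkQ_apply, Submodule.Quotient.mk_eq_zero]; exact hv
  set A : ℕ → Fin 3 → Fin 3 → (L ⧸ V X k n) := fun a i j => π ⁅Y X a i, Y X (n + 1 - a) j⁆ with hA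
  have key := cross_solve (k := k) hn A ?_ ?_
  · intro a b ha hb hab i j
    rw [Nat.add_sub_cancel]
    have h1 := key a ha (by omega) i j
    have hb' : n + 1 - a = b := by omega
    simp only [hA, hb'] at h1
    have h2 : π (cr (Y X (n + 1)) i j) = cr ![A 1 1 2, A 1 2 0, A 1 0 1] i j := by
      rw [cr_map]
      congr 1
      funext t
      rw [Y_succ X (by omega)]
      fin_cases t <;> simp [hA]
    have h3 : π (⁅Y X a i, Y X b j⁆ - cr (Y X (n + 1)) i j) = 0 := by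
      rw [map_sub, h1, h2, sub_self]
    rw [hπ, Submodule.mkQ_apply, Submodule.Quotient.mk_eq_zero] at h3
    exact h3
  · intro a b ha hb hab i j
    simp only [hA]
    have h1 : n + 1 - a = b := by omega
    have h2 : n + 1 - b = a := by omega
    rw [h1, h2, ← lie_skew, map_neg]
  · intro a b c ha hb hc habc i j s
    have comp : ∀ a b c, 1 ≤ a → 1 ≤ b → 1 ≤ c → a + b + c = n + 1 → ∀ i j s,
        π ⁅Y X a i, ⁅Y X b j, Y X c s⁆⁆ = cr (A a i) j s := by
      intro a b c ha hb hc habc i j s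
      have h1 := hP (b + c) (by omega) (by omega) b c hb hc rfl j s
      have h2 := lie_V_mem hP ha (by omega) i h1
      have h3 := hπ0 _ (V_mono X k (by omega) h2)
      rw [lie_sub, map_sub, sub_eq_zero] at h3
      rw [h3]
      rw [lie_cr, cr_map]
      simp only [hA]
      have h5 : n + 1 - a = b + c := by omega
      rw [h5]
    have hj := lie_jacobi (Y X a i) (Y X b j) (Y X c s)
    have hj' := congrArg π hj
    rw [map_add, map_add, map_zero, comp a b c ha hb hc habc i j s,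
      comp b c a hb hc ha (by omega) j s i, comp c a b hc ha hb (by omega) s i j] at hj'
    exact hj'

theorem cr_antisymm {Q : Type*} [AddCommGroup Q] (y : Fin 3 → Q) (i j : Fin 3) :
    cr y i j = - cr y j i := by
  fin_cases i <;> fin_cases j <;> simp [cr]

theorem P_two : P X k 2 := by
  intro a b ha hb hab i j
  obtain rfl : a = 1 := by omega
  obtain rfl : b = 1 := by omega
  have : ⁅Y X 1 i, Y X 1 j⁆ - cr (Y X 2) i j = 0 := by
    rw [Y_add_two]
    fin_cases i <;> fin_cases j <;> simp [cr]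
  rw [this]
  exact zero_mem _

theorem P_three (hd : ∀ i, ⁅X i, Y X 2 i⁆ ∈ V X k 2)
    (hs : ∀ i j, i ≠ j → ⁅X i, Y X 2 j⁆ + ⁅X j, Y X 2 i⁆ ∈ V X k 2) : P X k 3 := by
  have key : ∀ i j, ⁅X i, Y X 2 j⁆ - cr (Y X 3) i j ∈ V X k 2 := by
    have h3 : Y X 3 = ![⁅X 1, Y X 2 2⁆, ⁅X 2, Y X 2 0⁆, ⁅X 0, Y X 2 1⁆] := Y_add_two X 1
    intro i j
    rw [h3]
    fin_cases i <;> fin_cases j
    · simpa using hd 0
    · simp
    · change ⁅X 0, Y X 2 2⁆ - -⁅X 2, Y X 2 0⁆ ∈ V X k 2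
      rw [sub_neg_eq_add]
      exact hs 0 2 (by decide)
    · change ⁅X 1, Y X 2 0⁆ - -⁅X 0, Y X 2 1⁆ ∈ V X k 2
      rw [sub_neg_eq_add]
      exact hs 1 0 (by decide)
    · simpa using hd 1
    · simp
    · simp
    · change ⁅X 2, Y X 2 1⁆ - -⁅X 1, Y X 2 2⁆ ∈ V X k 2
      rw [sub_neg_eq_add]
      exact hs 2 1 (by decide)
    · simpa using hd 2
  intro a b ha hb hab i j
  have : (a = 1 ∧ b = 2) ∨ (a = 2 ∧ b = 1) := by omega
  rcases this with ⟨rfl, rfl⟩ | ⟨rfl, rfl⟩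
  · exact key i j
  · have h := key j i
    rw [← neg_mem_iff] at h
    convert h using 1
    rw [neg_sub, cr_antisymm _ i j, Y_one, ← lie_skew (Y X 2 i) (X j)]
    abel

theorem P_all [CharZero k] (hd : ∀ i, ⁅X i, Y X 2 i⁆ ∈ V X k 2)
    (hs : ∀ i j, i ≠ j → ⁅X i, Y X 2 j⁆ + ⁅X j, Y X 2 i⁆ ∈ V X k 2) : ∀ n, 2 ≤ n → P X k n := by
  intro n
  induction n using Nat.strong_induction_on with
  | _ n ih =>
    intro hn
    rcases Nat.lt_or_ge n 4 with h | h
    · have : n = 2 ∨ n = 3 := by omega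
      rcases this with rfl | rfl
      · exact P_two
      · exact P_three hd hs
    · obtain ⟨m, rfl⟩ : ∃ m, n = m + 1 := ⟨n - 1, by omega⟩
      exact P_succ (by omega) (fun j hj hjm => ih j (by omega) hj)

/-- the span of all `Y j i` -/
def W (X : Fin 3 → L) (k : Type*) [Field k] [LieAlgebra k L] : Submodule k L :=
  Submodule.span k {x | ∃ j i, x = Y X j i}

theorem V_le_W (m : ℕ) : V X k m ≤ W X k :=
  Submodule.span_mono fun _ ⟨j, _, i, hi⟩ => ⟨j, i, hi⟩

theorem mem_V_of_mem_W {w : L} (hw : w ∈ W X k) : ∃ m, w ∈ V X k m := by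
  induction hw using Submodule.span_induction with
  | mem x hx =>
    obtain ⟨j, i, rfl⟩ := hx
    exact ⟨j, Y_mem_V X k le_rfl i⟩
  | zero => exact ⟨0, zero_mem _⟩
  | add x y _ _ hx hy =>
    obtain ⟨m, hm⟩ := hx
    obtain ⟨n, hn⟩ := hy
    exact ⟨max m n, add_mem (V_mono X k (le_max_left _ _) hm) (V_mono X k (le_max_right _ _) hn)⟩
  | smul c x _ hx =>
    obtain ⟨m, hm⟩ := hx
    exact ⟨m, Submodule.smul_mem _ _ hm⟩

theorem lie_mem_W (hP : ∀ n, 2 ≤ n → P X k n) {x y : L} (hx : x ∈ W X k) (hy : y ∈ W X k) :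
    ⁅x, y⁆ ∈ W X k := by
  induction hx using Submodule.span_induction with
  | mem x hx =>
    obtain ⟨a, i, rfl⟩ := hx
    rcases Nat.eq_zero_or_pos a with rfl | ha
    · simp
    · obtain ⟨m, hm⟩ := mem_V_of_mem_W hy
      exact V_le_W _ (lie_V_mem (n := a + m) (fun n hn _ => hP n hn) ha le_rfl i hm)
  | zero => simp
  | add x x' _ _ hx hx' => rw [add_lie]; exact add_mem hx hx'
  | smul c x _ hx => rw [smul_lie]; exact Submodule.smul_mem _ _ hx

theorem Y_mem_lieSpan (j : ℕ) (i : Fin 3) : Y X j i ∈ LieSubalgebra.lieSpan k L (Set.range X) := by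
  have hX : ∀ i, X i ∈ LieSubalgebra.lieSpan k L (Set.range X) := fun i =>
    LieSubalgebra.subset_lieSpan ⟨i, rfl⟩
  rcases Nat.eq_zero_or_pos j with rfl | hj
  · simp
  · induction j, hj using Nat.le_induction generalizing i with
    | base => exact hX i
    | succ j hj ih =>
      rw [Y_succ X hj]
      fin_cases i
      · exact LieSubalgebra.lie_mem _ (hX 1) (ih 2)
      · exact LieSubalgebra.lie_mem _ (hX 2) (ih 0)
      · exact LieSubalgebra.lie_mem _ (hX 0) (ih 1)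

theorem lieSpan_eq_W (hP : ∀ n, 2 ≤ n → P X k n) :
    (LieSubalgebra.lieSpan k L (Set.range X)).toSubmodule = W X k := by
  apply le_antisymm
  · let WL : LieSubalgebra k L := { W X k with lie_mem' := fun hx hy => lie_mem_W hP hx hy }
    have : LieSubalgebra.lieSpan k L (Set.range X) ≤ WL := by
      rw [LieSubalgebra.lieSpan_le]
      rintro _ ⟨i, rfl⟩
      exact Submodule.subset_span ⟨1, i, rfl⟩
    exact this
  · unfold W
    rw [Submodule.span_le]
    rintro _ ⟨j, i, rfl⟩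
    exact Y_mem_lieSpan j i

end Lie

end Pool.Agent.H35.LoopSO3
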