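import Pool.Agent.H35.LoopSO3.Defs
import Pool.Agent.H35.LoopSO3.Filtered

/-!
# The cubic relations (R) imply that the generated subalgebra is factoring
-/

namespace Pool.Agent.H35.LoopSO3

/-- `f = c λ^{-a} + higher` -/
def lead (a : ℕ) (f : LaurentSeries ℂ) (c : ℂ) : Prop :=
  ∀ n : ℤ, n ≤ -(a : ℤ) → f.coeff n = if n = -(a : ℤ) then c else 0

theorem lead_mul {a b : ℕ} {f g : LaurentSeries ℂ} {c d : ℂ} (hf : lead a f c) (hg : lead b g d) :
    lead (a + b) (f * g) (c * d) := by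
  intro n hn
  rw [HahnSeries.coeff_mul]
  have hpair : ∀ p ∈ Finset.antidiagonal f.isPWO_support g.isPWO_support n,
      p = (-(a : ℤ), -(b : ℤ)) ∧ n = -((a + b : ℕ) : ℤ) := by
    intro p hp
    rw [Finset.mem_antidiagonal] at hp
    obtain ⟨h1, h2, h3⟩ := hp
    have h1' : -(a : ℤ) ≤ p.1 := by
      by_contra hlt
      push Not at hlt
      apply h1
      rw [hf _ hlt.le, if_neg hlt.ne]
    have h2' : -(b : ℤ) ≤ p.2 := by
      by_contra hlt
      push Not at hlt
      apply h2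
      rw [hg _ hlt.le, if_neg hlt.ne]
    push_cast at hn ⊢
    refine ⟨Prod.ext ?_ ?_, ?_⟩
    · simp only; omega
    · simp only; omega
    · omega
  by_cases hn' : n = -((a + b : ℕ) : ℤ)
  · rw [if_pos hn', Finset.sum_eq_single (-(a : ℤ), -(b : ℤ))]
    · simp only
      rw [hf _ le_rfl, if_pos rfl, hg _ le_rfl, if_pos rfl]
    · intro p hp hne
      exact absurd (hpair p hp).1 hne
    · intro hnot
      rw [Finset.mem_antidiagonal] at hnot
      by_contra hne
      apply hnot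
      refine ⟨?_, ?_, ?_⟩
      · exact left_ne_zero_of_mul hne
      · exact right_ne_zero_of_mul hne
      · rw [hn']; push_cast; ring
  · rw [if_neg hn', Finset.sum_eq_zero]
    intro p hp
    exact absurd (hpair p hp).2 hn'

theorem lead_add {a : ℕ} {f g : LaurentSeries ℂ} {c d : ℂ} (hf : lead a f c) (hg : lead a g d) :
    lead a (f + g) (c + d) := by
  intro n hn
  rw [HahnSeries.coeff_add, hf n hn, hg n hn]
  split_ifs <;> simp

theorem lead_sub {a : ℕ} {f g : LaurentSeries ℂ} {c d : ℂ} (hf : lead a f c) (hg : lead a g d) :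
    lead a (f - g) (c - d) := by
  intro n hn
  rw [HahnSeries.coeff_sub, hf n hn, hg n hn]
  split_ifs <;> simp

/-- `A = x λ^{-a} + higher` -/
def leadM (a : ℕ) (A : Loop) (x : Matrix (Fin 3) (Fin 3) ℂ) : Prop :=
  ∀ i j, lead a (entry A i j) (x i j)

theorem entry_lie (A B : Loop) (i j : Fin 3) : entry ⁅A, B⁆ i j =
    ∑ s, entry A i s * entry B s j - ∑ s, entry B i s * entry A s j := rfl

/-- commutator of constant matrices -/
def comm (x y : Matrix (Fin 3) (Fin 3) ℂ) : Matrix (Fin 3) (Fin 3) ℂ := x * y - y * x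

theorem leadM_lie {a b : ℕ} {A B : Loop} {x y : Matrix (Fin 3) (Fin 3) ℂ} (hA : leadM a A x)
    (hB : leadM b B y) : leadM (a + b) ⁅A, B⁆ (comm x y) := by
  intro i j
  rw [entry_lie, comm, Matrix.sub_apply, Matrix.mul_apply, Matrix.mul_apply, Fin.sum_univ_three,
    Fin.sum_univ_three, Fin.sum_univ_three, Fin.sum_univ_three]
  refine lead_sub (lead_add (lead_add (lead_mul (hA i 0) (hB 0 j)) (lead_mul (hA i 1) (hB 1 j)))
    (lead_mul (hA i 2) (hB 2 j))) ?_
  rw [add_comm a b]
  exact (lead_add (lead_add (lead_mul (hB i 0) (hA 0 j)) (lead_mul (hB i 1) (hA 1 j)))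
    (lead_mul (hB i 2) (hA 2 j)))

theorem e_lie01 : comm (-e 0) (-e 1) = -e 2 := by
  rw [comm]
  ext a b
  fin_cases a <;> fin_cases b <;> simp [e]

theorem e_lie12 : comm (-e 1) (-e 2) = -e 0 := by
  rw [comm]
  ext a b
  fin_cases a <;> fin_cases b <;> simp [e]

theorem e_lie20 : comm (-e 2) (-e 0) = -e 1 := by
  rw [comm]
  ext a b
  fin_cases a <;> fin_cases b <;> simp [e]

section

variable {X : Fin 3 → Loop} (hX : ∀ i, leadM 1 (X i) (-e i))

include hX

theorem Y_lead {m : ℕ} (hm : 1 ≤ m) (i : Fin 3) : leadM m (Y X m i) (-e i) := by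
  induction m, hm using Nat.le_induction generalizing i with
  | base => exact hX i
  | succ m hm ih =>
    rw [Y_succ X hm]
    fin_cases i
    · have := leadM_lie (hX 1) (ih 2)
      rw [e_lie12, add_comm] at this
      exact this
    · have := leadM_lie (hX 2) (ih 0)
      rw [e_lie20, add_comm] at this
      exact this
    · have := leadM_lie (hX 0) (ih 1)
      rw [e_lie01, add_comm] at this
      exact this

omit hX in
theorem entry_zero (i j : Fin 3) : entry 0 i j = 0 := rfl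

omit hX in
theorem entry_add (A B : Loop) (i j : Fin 3) : entry (A + B) i j = entry A i j + entry B i j := rfl

omit hX in
theorem entry_sub (A B : Loop) (i j : Fin 3) : entry (A - B) i j = entry A i j - entry B i j := rfl

omit hX in
theorem entry_neg (A : Loop) (i j : Fin 3) : entry (-A) i j = -entry A i j := rfl

omit hX in
theorem entry_smul (c : ℂ) (A : Loop) (i j : Fin 3) : entry (c • A) i j = c • entry A i j := rfl

theorem V_pole {m : ℕ} {v : Loop} (hv : v ∈ V X ℂ m) (i j : Fin 3) (n : ℤ) (hn : n < -(m : ℤ)) :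
    (entry v i j).coeff n = 0 := by
  induction hv using Submodule.span_induction with
  | mem x hx =>
    obtain ⟨a, ha, t, rfl⟩ := hx
    rcases Nat.eq_zero_or_pos a with rfl | ha0
    · rw [Y_zero, entry_zero, HahnSeries.coeff_zero]
    · have han : n < -(a : ℤ) := by
        have : (a : ℤ) ≤ m := by exact_mod_cast ha
        omega
      rw [Y_lead hX ha0 t i j n han.le, if_neg han.ne]
  | zero => rw [entry_zero, HahnSeries.coeff_zero]
  | add x y _ _ hx hy =>
    rw [entry_add, HahnSeries.coeff_add, hx, hy, add_zero]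
  | smul c x _ hx =>
    rw [entry_smul, HahnSeries.coeff_smul, hx, smul_zero]

omit hX in
theorem V_succ_decomp {m : ℕ} {u : Loop} (hu : u ∈ V X ℂ (m + 1)) :
    ∃ v ∈ V X ℂ m, ∃ c : Fin 3 → ℂ, u = v + ∑ i, c i • Y X (m + 1) i := by
  induction hu using Submodule.span_induction with
  | mem x hx =>
    obtain ⟨a, ha, t, rfl⟩ := hx
    rcases Nat.lt_or_ge a (m + 1) with h | h
    · exact ⟨_, Y_mem_V X ℂ (j := a) (m := m) (by omega) t, 0, by simp⟩
    · have : a = m + 1 := by omega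
      subst this
      refine ⟨0, zero_mem _, Pi.single t 1, ?_⟩
      rw [zero_add, Finset.sum_eq_single t]
      · simp
      · intro b _ hb
        simp [hb]
      · simp
  | zero => exact ⟨0, zero_mem _, 0, by simp⟩
  | add x y _ _ hx hy =>
    obtain ⟨v, hv, c, rfl⟩ := hx
    obtain ⟨v', hv', c', rfl⟩ := hy
    refine ⟨v + v', add_mem hv hv', c + c', ?_⟩
    simp only [Pi.add_apply, add_smul, Finset.sum_add_distrib]
    abel
  | smul a x _ hx =>
    obtain ⟨v, hv, c, rfl⟩ := hx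
    refine ⟨a • v, Submodule.smul_mem _ _ hv, a • c, ?_⟩
    simp only [Pi.smul_apply, smul_add, Finset.smul_sum, smul_smul, smul_eq_mul]

omit hX in
theorem sum_coeff (c : Fin 3 → ℂ) (y : Fin 3 → Loop) (i j : Fin 3) (n : ℤ) :
    (entry (∑ t, c t • y t) i j).coeff n = ∑ t, c t * (entry (y t) i j).coeff n := by
  rw [Fin.sum_univ_three, Fin.sum_univ_three]
  rfl

theorem disjoint_aux (m : ℕ) : ∀ u ∈ V X ℂ m, u ∈ taylor → u = 0 := by
  induction m with
  | zero =>
    intro u hu _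
    have : V X ℂ 0 ≤ ⊥ := by
      unfold V
      rw [Submodule.span_le]
      rintro _ ⟨j, hj, i, rfl⟩
      obtain rfl : j = 0 := by omega
      simp
    simpa using this hu
  | succ m ih =>
    intro u hu hut
    obtain ⟨v, hv, c, rfl⟩ := V_succ_decomp hu
    have hcoef : ∀ i j, ∑ t, c t * (-e t) i j = 0 := by
      intro i j
      have h1 := hut i j (-((m + 1 : ℕ) : ℤ)) (by push_cast; omega)
      rw [entry_add, HahnSeries.coeff_add, V_pole hX hv i j _ (by push_cast; omega), zero_add,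
        sum_coeff] at h1
      rw [← h1]
      apply Finset.sum_congr rfl
      intro t _
      rw [Y_lead hX (Nat.succ_le_succ (Nat.zero_le m)) t i j _ le_rfl, if_pos rfl]
    have h0 := hcoef 0 1
    have h1 := hcoef 0 2
    have h2 := hcoef 1 2
    rw [Fin.sum_univ_three] at h0 h1 h2
    simp [e] at h0 h1 h2
    have hc : c = 0 := by
      funext t
      fin_cases t
      · exact h0
      · exact h1
      · exact h2
    subst hc
    have hsum : (∑ i, (0 : Fin 3 → ℂ) i • Y X (m + 1) i) = 0 := by simp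
    rw [hsum, add_zero] at hut ⊢
    exact ih v hv hut

theorem codisjoint_aux (m : ℕ) : ∀ A : Loop,
    (∀ i j, ∀ n : ℤ, n < -(m : ℤ) → (entry A i j).coeff n = 0) →
      ∃ v ∈ V X ℂ m, A - v ∈ taylor := by
  induction m with
  | zero =>
    intro A hA
    refine ⟨0, zero_mem _, ?_⟩
    rw [sub_zero]
    intro i j n hn
    exact hA i j n (by simpa using hn)
  | succ m ih =>
    intro A hA
    set N : ℤ := -((m + 1 : ℕ) : ℤ) with hN
    set x : Fin 3 → Fin 3 → ℂ := fun i j => (entry A i j).coeff N with hx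
    have hskew : ∀ i j, x j i = - x i j := by
      intro i j
      have h : entry A j i = - entry A i j := A.2 i j
      simp only [hx]
      rw [h, HahnSeries.coeff_neg]
    have hdiag : ∀ i, x i i = 0 := by
      intro i
      have := hskew i i
      exact self_eq_neg.mp this
    set c : Fin 3 → ℂ := ![-x 0 1, -x 0 2, -x 1 2] with hc
    have hx' : ∀ i j, ∑ t, c t * (-e t) i j = x i j := by
      intro i j
      rw [Fin.sum_univ_three]
      have h10 := hskew 0 1
      have h20 := hskew 0 2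
      have h21 := hskew 1 2
      have h00 := hdiag 0
      have h11 := hdiag 1
      have h22 := hdiag 2
      fin_cases i <;> fin_cases j <;> simp [e, hc, h10, h20, h21, h00, h11, h22]
    obtain ⟨v, hv, hvt⟩ := ih (A - ∑ t, c t • Y X (m + 1) t) (by
      intro i j n hn
      rw [entry_sub, HahnSeries.coeff_sub, sum_coeff]
      have hn' : n ≤ N := by rw [hN]; push_cast; omega
      rcases hn'.lt_or_eq with h | h
      · rw [hA i j n h, Finset.sum_eq_zero, sub_zero]
        intro t _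
        rw [Y_lead hX (Nat.succ_le_succ (Nat.zero_le m)) t i j n hn', if_neg h.ne, mul_zero]
      · have h1 : (entry A i j).coeff n = x i j := by rw [h]
        rw [h1, ← hx' i j, sub_eq_zero]
        apply Finset.sum_congr rfl
        intro t _
        rw [Y_lead hX (Nat.succ_le_succ (Nat.zero_le m)) t i j n hn', if_pos h])
    refine ⟨v + ∑ t, c t • Y X (m + 1) t, add_mem (V_mono X ℂ (Nat.le_succ m) hv)
      (Submodule.sum_mem _ fun t _ => Submodule.smul_mem _ _ (Y_mem_V X ℂ le_rfl t)), ?_⟩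
    have : A - (v + ∑ t, c t • Y X (m + 1) t) = A - ∑ t, c t • Y X (m + 1) t - v := by abel
    rw [this]
    exact hvt

omit hX in
theorem exists_pole (A : Loop) : ∃ m : ℕ, ∀ i j, ∀ n : ℤ, n < -(m : ℤ) →
    (entry A i j).coeff n = 0 := by
  have h : ∀ f : LaurentSeries ℂ, ∃ m : ℕ, ∀ n : ℤ, n < -(m : ℤ) → f.coeff n = 0 := by
    intro f
    refine ⟨(-f.order).toNat, fun n hn => HahnSeries.coeff_eq_zero_of_lt_order ?_⟩
    have := Int.self_le_toNat (-f.order)
    omega
  choose N hN using fun p : Fin 3 × Fin 3 => h (entry A p.1 p.2)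
  refine ⟨∑ p, N p, fun i j n hn => hN (i, j) n (lt_of_lt_of_le hn ?_)⟩
  have : N (i, j) ≤ ∑ p, N p := Finset.single_le_sum (fun _ _ => Nat.zero_le _) (Finset.mem_univ _)
  have : (N (i, j) : ℤ) ≤ ((∑ p, N p : ℕ) : ℤ) := by exact_mod_cast this
  omega

theorem isCompl_W : IsCompl taylor (W X ℂ) := by
  constructor
  · rw [Submodule.disjoint_def]
    intro u hut huW
    obtain ⟨m, hm⟩ := mem_V_of_mem_W huW
    exact disjoint_aux hX m u hm hut
  · rw [codisjoint_iff, eq_top_iff]
    intro A _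
    obtain ⟨m, hm⟩ := exists_pole A
    obtain ⟨v, hv, hvt⟩ := codisjoint_aux hX m A hm
    rw [Submodule.mem_sup]
    exact ⟨A - v, hvt, v, V_le_W m hv, by abel⟩

end

theorem isFactoring_of_relR (E : Fin 3 → Loop) (hE : ∀ i, E i - eOver i ∈ taylor) (hR : RelR E) :
    IsFactoring (LieSubalgebra.lieSpan ℂ Loop (Set.range E)) := by
  set X : Fin 3 → Loop := fun i => - E i with hXdef
  have hX : ∀ i, leadM 1 (X i) (-e i) := by
    intro i a b n hn
    have h2 := hE i a b n (by push_cast at hn; omega)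
    rw [entry_sub, HahnSeries.coeff_sub, sub_eq_zero] at h2
    simp only [hXdef]
    rw [entry_neg, HahnSeries.coeff_neg, h2]
    change -((HahnSeries.single (-1) (e i a b)).coeff n) = _
    rw [HahnSeries.coeff_single]
    push_cast
    split_ifs <;> simp
  have hY2 : Y X 2 = ![⁅E 1, E 2⁆, ⁅E 2, E 0⁆, ⁅E 0, E 1⁆] := by
    have : Y X 2 = ![⁅X 1, X 2⁆, ⁅X 2, X 0⁆, ⁅X 0, X 1⁆] := Y_add_two X 0
    rw [this]
    simp [hXdef]
  have hEV : ∀ i, E i ∈ V X ℂ 2 := by
    intro i
    have := Y_mem_V X ℂ (show 1 ≤ 2 by norm_num) i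
    rw [Y_one] at this
    have h2 := neg_mem this
    simpa [hXdef] using h2
  have hKV : ∀ i, Y X 2 i ∈ V X ℂ 2 := fun i => Y_mem_V X ℂ le_rfl i
  have hK0 : ⁅E 1, E 2⁆ ∈ V X ℂ 2 := by have := hKV 0; rwa [hY2] at this
  have hK1 : ⁅E 2, E 0⁆ ∈ V X ℂ 2 := by have := hKV 1; rwa [hY2] at this
  have hK2 : ⁅E 0, E 1⁆ ∈ V X ℂ 2 := by have := hKV 2; rwa [hY2] at this
  obtain ⟨A, B, C, D, h1, h2⟩ := hR
  have hKF : ∀ (P Q : Matrix (Fin 3) (Fin 3) ℂ) (r : Fin 3),
      (mulVecL P (vecK E) + mulVecL Q (vecF E)) r ∈ V X ℂ 2 := by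
    intro P Q r
    refine add_mem (Submodule.sum_mem _ fun s _ => Submodule.smul_mem _ _ ?_)
      (Submodule.sum_mem _ fun s _ => Submodule.smul_mem _ _ ?_)
    · fin_cases s
      · exact hK1
      · exact hK2
      · exact hK0
    · fin_cases s
      · exact hEV 1
      · exact hEV 2
      · exact hEV 0
  have h1' : ∀ r : Fin 3, cubic1 E r ∈ V X ℂ 2 := fun r => by rw [h1]; exact hKF A B r
  have h2' : ∀ r : Fin 3, cubic2 E r ∈ V X ℂ 2 := fun r => by rw [h2]; exact hKF C D r
  have hd : ∀ i, ⁅X i, Y X 2 i⁆ ∈ V X ℂ 2 := by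
    intro i
    rw [hY2]
    fin_cases i
    · change ⁅-E 0, ⁅E 1, E 2⁆⁆ ∈ _
      rw [neg_lie]
      exact neg_mem (h1' 0)
    · change ⁅-E 1, ⁅E 2, E 0⁆⁆ ∈ _
      rw [neg_lie]
      exact neg_mem (h1' 2)
    · change ⁅-E 2, ⁅E 0, E 1⁆⁆ ∈ _
      rw [neg_lie]
      exact neg_mem (h1' 1)
  have hs' : ∀ i j, i < j → ⁅X i, Y X 2 j⁆ + ⁅X j, Y X 2 i⁆ ∈ V X ℂ 2 := by
    intro i j hij
    rw [hY2]
    fin_cases i <;> fin_cases j <;> first | exact absurd hij (by decide) | skip
    · change ⁅-E 0, ⁅E 2, E 0⁆⁆ + ⁅-E 1, ⁅E 1, E 2⁆⁆ ∈ _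
      rw [neg_lie, neg_lie, ← neg_add]
      exact neg_mem (h2' 1)
    · change ⁅-E 0, ⁅E 0, E 1⁆⁆ + ⁅-E 2, ⁅E 1, E 2⁆⁆ ∈ _
      rw [neg_lie, neg_lie, ← neg_add, add_comm]
      exact neg_mem (h2' 0)
    · change ⁅-E 1, ⁅E 0, E 1⁆⁆ + ⁅-E 2, ⁅E 2, E 0⁆⁆ ∈ _
      rw [neg_lie, neg_lie, ← neg_add]
      exact neg_mem (h2' 2)
  have hs : ∀ i j, i ≠ j → ⁅X i, Y X 2 j⁆ + ⁅X j, Y X 2 i⁆ ∈ V X ℂ 2 := by
    intro i j hij
    rcases lt_or_gt_of_ne hij with h | h
    · exact hs' i j h
    · rw [add_comm]; exact hs' j i h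
  have hP := P_all hd hs
  have hspan : LieSubalgebra.lieSpan ℂ Loop (Set.range E) =
      LieSubalgebra.lieSpan ℂ Loop (Set.range X) := by
    apply le_antisymm
    · rw [LieSubalgebra.lieSpan_le]
      rintro _ ⟨i, rfl⟩
      have : X i ∈ LieSubalgebra.lieSpan ℂ Loop (Set.range X) :=
        LieSubalgebra.subset_lieSpan ⟨i, rfl⟩
      have := neg_mem this
      simpa [hXdef] using this
    · rw [LieSubalgebra.lieSpan_le]
      rintro _ ⟨i, rfl⟩
      have : E i ∈ LieSubalgebra.lieSpan ℂ Loop (Set.range E) :=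
        LieSubalgebra.subset_lieSpan ⟨i, rfl⟩
      exact neg_mem this
  unfold IsFactoring
  rw [hspan, lieSpan_eq_W hP]
  exact isCompl_W hX

end Pool.Agent.H35.LoopSO3
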